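import Pool.Agent.N820.RS.Rq

/-!
# Stark's conjecture for real quadratic ray class fields: a local-global principle

Let `K` be a real quadratic field, `𝔪` a nonzero proper ideal, `S` the set of the two infinite places
and the primes which divide `𝔪`, and `H / K` a finite abelian extension which is unramified outside
`𝔪` and `∞₂` (the statements are empty for the other abelian extensions in which `∞₁` splits), for
instance the ray class field of modulus `𝔪 ∞₂`.

The conjecture for `H` (in Tate's form, equivalent to the question by the problem file) is the
conjunction of its `l`-parts (`l` prime), and the `l`-part for `H` follows from the `l`-parts for the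
fields `L` between `K` and `H` for which `Gal(L/K)` is the product of an `l`-group and a cyclic group
of order prime to `l`.

The engine is the theorem of helper598 (`MP_ca56d1_nt.LocalGlobal`).
-/

set_option autoImplicit false

namespace Pool.Agent.Results.MP_1ef7cf_nt.LocalGlobal

open NumberField IsDedekindDomain Pool.Agent.N598.ST Pool.Agent.N820.RS

/-- `K` is a real quadratic field: of degree two, with two real places. -/
structure IsRealQuadratic (K : Type) [Field K] [NumberField K] : Prop where
  deg : Module.finrank ℚ K = 2
  real : InfinitePlace.nrRealPlaces K = 2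

/-- Let `K` be a real quadratic field, `𝔪` an ideal, `𝔪 ≠ 0`, `𝔪 ≠ 𝓞 K`, let `S` consist of the
infinite places and the primes dividing `𝔪`, let `v₁` be one of the infinite places, and let `H / K`
be abelian, such that all places of `H` above `v₁` are real.
1. For every prime `l`: if the `l`-part of the conjecture holds for all `L / K` which embed in `H`
  and whose Galois group is the product of an `l`-group and a cyclic group of order prime to `l`,
  then it holds for `H / K`.
2. If this is so for all primes `l`, then the conjecture holds for `H / K`.
3. The conjecture for `H / K` implies all its `l`-parts. -/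
theorem result (K : Type) [Field K] [NumberField K] (hK : IsRealQuadratic K) (𝔪 : Ideal (𝓞 K))
    (hm0 : 𝔪 ≠ ⊥) (hm1 : 𝔪 ≠ ⊤) (S : Finset (Place K)) (hS : IsModulus 𝔪 S)
    (v₁ : InfinitePlace K) (H : Type) [Field H] [NumberField H] [Algebra K H]
    [IsAbelianGalois K H] (hv : ∀ w : InfinitePlace H, w.comap (algebraMap K H) = v₁ → w.IsReal) :
    (∀ l : ℕ, l.Prime →
      (∀ (L : Type) [Field L] [NumberField L] [Algebra K L], Nonempty (L →ₐ[K] H) →
        CyclicOutside l Gal(L/K) → RPart K L l S v₁) → RPart K H l S v₁) ∧
    ((∀ l : ℕ, l.Prime → ∀ (L : Type) [Field L] [NumberField L] [Algebra K L],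
      Nonempty (L →ₐ[K] H) → CyclicOutside l Gal(L/K) → RPart K L l S v₁) → RMul K H 1 S v₁) ∧
    (RMul K H 1 S v₁ → ∀ l : ℕ, l.Prime → RPart K H l S v₁) := by
  have h2 : 2 ≤ Fintype.card (InfinitePlace K) := by
    rw [InfinitePlace.card_eq_nrRealPlaces_add_nrComplexPlaces, hK.real]
    exact Nat.le_add_right _ _
  obtain ⟨ha, hb⟩ := real_local_global (H := H) hv hS.inf (hS.card hm1 h2 hm0)
  exact ⟨ha, fun h => hb.2 fun l hl => ha l hl (h l hl), hb.1⟩

end Pool.Agent.Results.MP_1ef7cf_nt.LocalGlobal
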